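import Mathlib
import Pool.Agent.U37.LC.Fin
import Pool.Agent.U37.LC.SA
import Pool.Agent.U492.LC.Link
import Pool.Agent.U913.LC.Curve

/-!
# Absolute continuity for leaky periodic curves

Let `γ : ℝ → ℝ²` be injective, `C¹`, parametrised by arc length, with `γ(s + L) = γ(s) + l`, where
`L > 0` and `l ≠ 0`, and let `α > 0`. The spectrum of the Hamiltonian
`H = -Δ - α δ(x - Γ)`, `Γ = γ(ℝ)`, is purely absolutely continuous: this is a full positive answer
to Q1.

Outline of the proof.

(1) In Fourier variables `p = ⟨ξ, l⟩`, `η = ⟨ξ, e⟩` (`e` a unit vector orthogonal to `l`) the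
resolvent is `S A(z)⁻¹ S` with the pencil `A(z) = 1 - α W W* - (z + 1) S²`, where `S` is the
multiplication by `(1 + |2πξ|²) ^ (-1/2)` and `W` maps fields over the Brillouin zone with values
in `L²(0, L)` (the curve modulo its period) to `L²(ℝ²)`. The trace bound with a loss (`H ^ (3/4)` in
place of `H¹`) makes `A(z)` coercive.

(2) `W* ((1 + |2πξ|²) / (|2πξ|² - z)) W` is decomposable; its fibre over the quasi-momentum `κ` is
the integral operator with the kernel
`∑ exp(2πi(κ + n)(X(s) - X(t))) exp(-β_n |Y(s) - Y(t)|) / (2 β_n)`, `β_n² = θ²(κ + n)² - z`.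
Away from the thresholds `z = θ²(κ + n)²` it has two different analytic continuations to real
`(z, κ)`: the outgoing one, from `Im z > 0`, in which all open channels have
`β_n = -i |β_n|`, and the one from `Im κ > 0` at fixed real `z`, in which the open channels with
`n ≥ 0` have `β_n = + i |β_n|`.

(3) If `1 - α M` is not invertible for the outgoing continuation, then, by the energy identity, an
element `g` of the kernel does not radiate in any open channel; hence it is in the kernel of the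
other continuation, which is analytic in `(z, κ)` jointly and is defined along the whole half
strip `0 < Re κ < 1`, `Im κ > 0`. At `κ = 1/2 + iτ`, `τ → ∞`, its norm tends to zero. So for each
real `z` the bad `κ` are discrete, and the bad set is locally the zero set of an analytic function
of two variables which does not vanish identically in `κ`; hence the set of the `κ` for which some
`z` in a given null set is bad has measure zero.

(4) Given a compact null set `E` of energies, one removes a small open set of `κ`; on the rest the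
sandwiched resolvent is bounded near `E`, so the spectral measures of the vectors generated by `W`
do not charge `E`; on the orthogonal complement the resolvent is that of the free Laplacian.
-/

set_option autoImplicit false

open MeasureTheory Filter Topology Complex
open scoped ComplexConjugate InnerProductSpace

namespace Pool.Agent.Results.MP_daec8e_mp.PeriodicLeakyCurves

section operators
variable {V : Type} [NormedAddCommGroup V] [InnerProductSpace ℂ V] [CompleteSpace V]

/-- `μ` is the spectral measure of `f` for the self-adjoint operator `H`: for each nonreal `z` the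
equation `H u - z u = f` has exactly one solution `u`, and `⟨f, u⟩ = ∫ (x - z)⁻¹ dμ(x)` -/
def IsSpectralMeasure (H : V →ₗ.[ℂ] V) (f : V) (μ : Measure ℝ) : Prop :=
  IsFiniteMeasure μ ∧ ∀ z : ℂ, z.im ≠ 0 → ∃ u : H.domain,
    (∀ v : H.domain, H v - z • (v : V) = f ↔ v = u) ∧
    ⟪f, (u : V)⟫_ℂ = ∫ x : ℝ, 1 / ((x : ℂ) - z) ∂μ

/-- `H` is self-adjoint, `u` is in the domain of `H` and `H u = f` if and only if `G u f`, and all
spectral measures of `H` are absolutely continuous -/
def IsSelfAdjointPurelyAC (G : V → V → Prop) (H : V →ₗ.[ℂ] V) : Prop :=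
  IsSelfAdjoint H ∧ (∀ u f : V, (∃ hu : u ∈ H.domain, H ⟨u, hu⟩ = f) ↔ G u f) ∧
    ∀ f : V, ∃ μ : Measure ℝ, IsSpectralMeasure H f μ ∧ μ ≪ volume

end operators

section forms
variable {E : Type} [NormedAddCommGroup E] [InnerProductSpace ℝ E] [FiniteDimensional ℝ E]
  [MeasurableSpace E] [BorelSpace E]

/-- `γ` is an injective `C¹` curve, parametrised by arc length, with `γ(s + L) = γ(s) + l`, `L > 0`
and `l ≠ 0` -/
structure IsPeriodicCurve (γ : ℝ → E) (L : ℝ) (l : E) : Prop where
  smooth : ContDiff ℝ 1 γ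
  speed : ∀ s, ‖deriv γ s‖ = 1
  simple : Function.Injective γ
  pos : 0 < L
  ne : l ≠ 0
  periodic : ∀ s, γ (s + L) = γ s + l

/-- `∫ ⟨∇φ, ∇ψ⟩ dx`; the sum is over an orthonormal basis -/
noncomputable def gradForm (φ ψ : SchwartzMap E ℂ) : ℂ :=
  ∫ x : E, ∑ i, conj (fderiv ℝ φ x (stdOrthonormalBasis ℝ E i)) *
    fderiv ℝ ψ x (stdOrthonormalBasis ℝ E i)

/-- the form of the Hamiltonian on Schwartz functions,
`∫ ⟨∇φ, ∇ψ⟩ dx - α ∫ conj φ(γ(s)) ψ(γ(s)) ds` -/
noncomputable def leakyForm (γ : ℝ → E) (α : ℝ) (φ ψ : SchwartzMap E ℂ) : ℂ :=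
  gradForm φ ψ - α * ∫ s : ℝ, conj (φ (γ s)) * ψ (γ s)

/-- the Schwartz functions `ψ n` converge to `u` in `H¹`: they converge to `u` in `L²` and their
gradients form a Cauchy sequence in `L²` -/
def ConvergesH1 (ψ : ℕ → SchwartzMap E ℂ) (u : Lp ℂ 2 (volume : Measure E)) : Prop :=
  Tendsto (fun n => (ψ n).toLp 2 volume) atTop (𝓝 u) ∧
    Tendsto (fun p : ℕ × ℕ => gradForm (ψ p.1 - ψ p.2) (ψ p.1 - ψ p.2)) atTop (𝓝 0)

/-- `u` is in `H¹` and `H u = f` in the sense of forms: the form of `φ` and `u` is `⟨φ, f⟩` for all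
Schwartz functions `φ`, where the form of `φ` and `u` is the limit of the form along `ψ n → u` -/
def LeakyEquation (γ : ℝ → E) (α : ℝ) (u f : Lp ℂ 2 (volume : Measure E)) : Prop :=
  ∃ ψ : ℕ → SchwartzMap E ℂ, ConvergesH1 ψ u ∧ ∀ φ : SchwartzMap E ℂ,
    Tendsto (fun n => leakyForm γ α φ (ψ n)) atTop (𝓝 ⟪φ.toLp 2 volume, f⟫_ℂ)

/-- the Hamiltonian `-Δ - α δ(x - Γ)` of the curve `Γ = γ(ℝ)` is self-adjoint and all its spectral
measures are absolutely continuous -/
def HamiltonianPurelyAC (γ : ℝ → E) (α : ℝ) : Prop :=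
  ∃ H : Lp ℂ 2 (volume : Measure E) →ₗ.[ℂ] Lp ℂ 2 (volume : Measure E),
    IsSelfAdjointPurelyAC (LeakyEquation γ α) H

end forms


/-- the sum over an orthonormal basis does not depend on the basis -/
theorem sum_basis {E : Type} [NormedAddCommGroup E] [InnerProductSpace ℝ E] {ι κ : Type}
    [Fintype ι] [Fintype κ] (b : OrthonormalBasis ι ℝ E) (c : OrthonormalBasis κ ℝ E)
    (A B : E →L[ℝ] ℂ) : ∑ i, conj (A (b i)) * B (b i) = ∑ j, conj (A (c j)) * B (c j) := by
  classical
  have hA : ∀ i, A (b i) = ∑ j, ((⟪c j, b i⟫_ℝ : ℝ) : ℂ) * A (c j) := by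
    intro i
    conv_lhs => rw [← c.sum_repr' (b i)]
    rw [map_sum]
    refine Finset.sum_congr rfl fun j _ => ?_
    rw [map_smul, Complex.real_smul]
  have hB : ∀ i, B (b i) = ∑ j, ((⟪c j, b i⟫_ℝ : ℝ) : ℂ) * B (c j) := by
    intro i
    conv_lhs => rw [← c.sum_repr' (b i)]
    rw [map_sum]
    refine Finset.sum_congr rfl fun j _ => ?_
    rw [map_smul, Complex.real_smul]
  have hO : ∀ j k, ∑ i, ((⟪c j, b i⟫_ℝ : ℝ) : ℂ) * ((⟪c k, b i⟫_ℝ : ℝ) : ℂ) =
      if j = k then 1 else 0 := by
    intro j k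
    have h1 : ∑ i, ⟪c j, b i⟫_ℝ * ⟪b i, c k⟫_ℝ = ⟪c j, c k⟫_ℝ := b.sum_inner_mul_inner _ _
    have h2 : ⟪c j, c k⟫_ℝ = if j = k then 1 else 0 := orthonormal_iff_ite.1 c.orthonormal j k
    rw [h2] at h1
    have h3 := congrArg (fun x : ℝ => (x : ℂ)) h1
    simp only [Complex.ofReal_sum, Complex.ofReal_mul] at h3
    rw [show (((if j = k then 1 else 0 : ℝ)) : ℂ) = if j = k then 1 else 0 by
      split_ifs <;> simp] at h3
    rw [← h3]
    refine Finset.sum_congr rfl fun i _ => ?_
    rw [real_inner_comm (c k)]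
  calc ∑ i, conj (A (b i)) * B (b i)
      = ∑ i, ∑ j, ∑ k, (((⟪c j, b i⟫_ℝ : ℝ) : ℂ) * ((⟪c k, b i⟫_ℝ : ℝ) : ℂ)) *
          (conj (A (c j)) * B (c k)) := by
        refine Finset.sum_congr rfl fun i _ => ?_
        rw [hA, hB, map_sum, Finset.sum_mul]
        refine Finset.sum_congr rfl fun j _ => ?_
        rw [Finset.mul_sum]
        refine Finset.sum_congr rfl fun k _ => ?_
        rw [map_mul, Complex.conj_ofReal]
        ring
    _ = ∑ j, ∑ k, (∑ i, ((⟪c j, b i⟫_ℝ : ℝ) : ℂ) * ((⟪c k, b i⟫_ℝ : ℝ) : ℂ)) *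
          (conj (A (c j)) * B (c k)) := by
        rw [Finset.sum_comm]
        refine Finset.sum_congr rfl fun j _ => ?_
        rw [Finset.sum_comm]
        refine Finset.sum_congr rfl fun k _ => ?_
        rw [Finset.sum_mul]
    _ = ∑ j, conj (A (c j)) * B (c j) := by
        refine Finset.sum_congr rfl fun j _ => ?_
        rw [Finset.sum_eq_single j]
        · rw [hO, if_pos rfl, one_mul]
        · intro k _ hk
          rw [hO, if_neg hk.symm, zero_mul]
        · simp

theorem gradForm_eq (φ ψ : SchwartzMap (EuclideanSpace ℝ (Fin 2)) ℂ) :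
    gradForm φ ψ = Pool.Agent.U37.LC.gradForm φ ψ := by
  unfold gradForm Pool.Agent.U37.LC.gradForm
  refine integral_congr_ae (Eventually.of_forall fun x => ?_)
  have h := sum_basis (stdOrthonormalBasis ℝ (EuclideanSpace ℝ (Fin 2)))
    (EuclideanSpace.basisFun (Fin 2) ℝ) (fderiv ℝ φ x) (fderiv ℝ ψ x)
  simp only [EuclideanSpace.basisFun_apply] at h
  exact h

/-- The spectrum of the leaky-curve Hamiltonian of a periodic curve in the plane is purely
absolutely continuous. -/
theorem result (α : ℝ) (hα : 0 < α) (γ : ℝ → EuclideanSpace ℝ (Fin 2)) (L : ℝ)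
    (l : EuclideanSpace ℝ (Fin 2)) (hγ : IsPeriodicCurve γ L l) :
    HamiltonianPurelyAC γ α := by
  have hLink := Pool.Agent.U492.LC.jobLink Pool.Agent.U37.LC.jobBilip
    Pool.Agent.U913.LC.Four.jobFourier (Pool.Agent.U913.LC.Cu.jobCurve
      Pool.Agent.U606.LC.Pars.main)
  obtain ⟨H, h1, h2, h3⟩ := Pool.Agent.U37.LC.final hLink Pool.Agent.U37.LC.jobSA γ L l α hγ.smooth
    hγ.speed hγ.simple hγ.pos hγ.ne hγ.periodic hα
  refine ⟨H, h1, fun u f => ?_, fun f => ?_⟩
  · rw [← h2]
    constructor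
    · rintro ⟨ψ, ha, hb, hc⟩
      refine ⟨ψ, ⟨ha, ?_⟩, fun φ => ?_⟩
      · simp_rw [gradForm_eq]
        exact hb
      · unfold leakyForm
        simp_rw [gradForm_eq]
        exact hc φ
    · rintro ⟨ψ, ⟨ha, hb⟩, hc⟩
      simp_rw [gradForm_eq] at hb
      refine ⟨ψ, ha, hb, fun φ => ?_⟩
      have h4 := hc φ
      unfold leakyForm at h4
      simp_rw [gradForm_eq] at h4
      exact h4
  · obtain ⟨μ, hμ1, hμ2, hμ3⟩ := h3 f
    exact ⟨μ, ⟨hμ1, hμ3⟩, hμ2⟩

end Pool.Agent.Results.MP_daec8e_mp.PeriodicLeakyCurves
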